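import Pool.Agent.helper83.LS.Spec3

set_option autoImplicit false

/-!
# Project ls, KK: soundness of the rules
-/

namespace LSH

theorem KK (hRP : RP_stmt) (hRW : RW_stmt) (hRL1 : RL1_stmt) (hRL3 : RL3_stmt) (hU3 : U3_stmt) :
    KK_stmt := by
  intro i t h
  induction h with
  | leaf i => exact ⟨hRL1.1, fun _ => hRP.2.2 _ hRP.1, fun _ => hRP.1⟩
  | un0 i t _ ih =>
    have h1 : PP (.un t) := hRP.2.1 t (ih.2.1 le_rfl)
    exact ⟨hRL1.2 t ih.1, fun _ => hRP.2.2 _ h1, fun _ => h1⟩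
  | un2 t _ ih =>
    exact ⟨hRL1.2 t ih.1, fun h => absurd h (by omega), fun h => absurd h (by omega)⟩
  | un3 i t hi _ ih =>
    exact ⟨hRL1.2 _ (hRL1.2 _ (hRL1.2 _ ih.1)), fun _ => hU3 t ih.1, fun h => absurd h (by omega)⟩
  | br1 i s t hi _ _ ihs iht =>
    exact ⟨(hRL3 s t ihs.1 (iht.2.1 le_rfl)).1,
      fun _ => (hRW s t (ihs.2.2 rfl) (iht.2.1 le_rfl)).1, fun h => absurd h (by omega)⟩
  | br1' i s t hi _ _ ihs iht =>
    exact ⟨(hRL3 s t ihs.1 (iht.2.1 (by omega))).1,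
      fun _ => (hRW t s (iht.2.2 rfl) (ihs.2.1 le_rfl)).2, fun h => absurd h (by omega)⟩
  | br2 s t _ _ ihs iht =>
    exact ⟨(hRL3 s t ihs.1 (iht.2.1 le_rfl)).1, fun h => absurd h (by omega),
      fun h => absurd h (by omega)⟩
  | br2' s t _ _ ihs iht =>
    exact ⟨(hRL3 t s iht.1 (ihs.2.1 le_rfl)).2, fun h => absurd h (by omega),
      fun h => absurd h (by omega)⟩

end LSH
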