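import Pool.Agent.helper83.LS.Spec

set_option autoImplicit false

/-!
# LS: U3a
-/

namespace LSH

theorem U3a_gen_mono {A B : Set Pt} (h : A ⊆ B) (hB : Gen B) : Gen A :=
  fun a ha b hb hab => hB a (h ha) b (h hb) hab

theorem U3a (hOB : OB_stmt) (hEE : EE_stmt) (hAU : AU_stmt) (hRL : RL1_stmt) (hFA : FA_stmt) :
    U3a_stmt := by
  intro t ht S p hS hgen hp hcase
  have h2 : LL (.un (.un t)) := hRL.2 _ (hRL.2 _ ht)
  rcases hcase with ⟨z, hz, hzl, hzp⟩ | habove
  · have hR : (S.erase z).card = (BT.un (.un t)).size := by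
      rw [Finset.card_erase_of_mem hz, hS]
      rfl
    have hins : insert z (S.erase z) = S := Finset.insert_erase hz
    have hgenR : Gen (insert z ((S.erase z : Finset Pt) : Set Pt)) := by
      refine U3a_gen_mono ?_ hgen
      rw [← Finset.coe_insert, hins]
      exact Set.subset_insert _ _
    have hlt : ∀ s ∈ S.erase z, z.1 < s.1 := by
      intro s hs
      have hs2 := Finset.mem_erase.mp hs
      refine lt_of_le_of_ne (hzl s hs2.2) ?_
      exact (hgen z (Set.mem_insert_of_mem _ hz) s (Set.mem_insert_of_mem _ hs2.2)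
        (Ne.symm hs2.1)).1
    obtain ⟨d, hd, -⟩ := (hFA _ h2 (S.erase z) z hR hgenR).1 hlt
    refine ⟨.un z false d, false, ?_, Or.inr hzp⟩
    have h3 := hAU p z false false _ (S.erase z) d hd (Finset.notMem_erase z S) ?_
    · rw [hins] at h3
      exact h3
    intro e he w hw1 hw2
    have hpz : p.1 < z.1 := hp z hz
    have hpts : ∀ x ∈ d.pts, x ∈ S.erase z := by
      intro x hx
      rw [hd.2.1] at hx
      exact hx
    -- the first edge lies to the left of z
    have hw3 : w.1 ≤ z.1 ∧ (w.1 = z.1 → w = z) := by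
      rcases hw1 with ⟨h4, -⟩ | ⟨-, ⟨h5, -⟩ | ⟨h5, h6⟩⟩
      · exact absurd h4 (by simp)
      · have h5' : w.1 = p.1 := h5
        refine ⟨by rw [h5']; exact hpz.le, fun h6 => ?_⟩
        rw [h5'] at h6
        exact absurd h6 hpz.ne
      · have h5' : w.2 = z.2 := h5
        have h6' : w.1 ∈ Set.uIcc p.1 z.1 := h6
        rw [Set.uIcc_of_le hpz.le] at h6'
        exact ⟨h6'.2, fun h7 => Prod.ext h7 h5'⟩
    have hbox := (hOB.1 e w hw2).1
    unfold att at he
    rcases List.mem_cons.mp he with h4 | h4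
    · have hea : e.a = z := by rw [h4]
      have heb : e.b = d.root := by rw [h4]
      have h5 : z.1 < d.root.1 := hlt _ (hpts _ (hEE.2.1 d))
      rw [hea, heb, Set.uIcc_of_le h5.le] at hbox
      have h6 : w = z := hw3.2 (le_antisymm hw3.1 hbox.1)
      exact ⟨Or.inr h6, Or.inl (h6.trans hea.symm)⟩
    · exfalso
      have h5 := hEE.1 d e h4
      have h6 := hlt _ (hpts _ h5.1)
      have h7 := hlt _ (hpts _ h5.2)
      have h8 := hbox.1
      have h9 : z.1 < e.a.1 ⊓ e.b.1 := lt_min h6 h7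
      linarith [hw3.1, h9.trans_le h8]
  · have h3 : LL (.un (.un (.un t))) := hRL.2 _ h2
    obtain ⟨d, hd, -⟩ := (hFA _ h3 S p hS hgen).2.2.1 habove
    exact ⟨d, true, hd, Or.inl rfl⟩

end LSH
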